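import Pool.Agent.Y5.V.Stm

/-!
Limits of the solutions of the truncated systems (VL-LIM).
-/

set_option autoImplicit false
set_option linter.all false

open Set Filter Topology
open scoped ComplexConjugate

namespace Pool.Agent.Y141.VL.Lim

open Pool.Agent.Y6.M (Z3 C3 Coef dt kc cj nsq len adv leray IsField energy)
open Pool.Agent.Y5.V

/-! ### Lengths -/

theorem len_nonneg (k : Z3) : 0 ≤ len k := Real.sqrt_nonneg _

theorem len_eq (k : Z3) :
    len k = ‖(WithLp.toLp 2 (fun j => (k j : ℝ)) : EuclideanSpace ℝ (Fin 3))‖ := by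
  rw [EuclideanSpace.norm_eq]
  unfold len nsq
  congr 1
  push_cast
  refine Finset.sum_congr rfl fun j _ => ?_
  simp

theorem len_sub (a b : Z3) : len (a - b) ≤ len a + len b := by
  rw [len_eq, len_eq a, len_eq b]
  refine le_trans (le_of_eq ?_) (norm_sub_le _ _)
  congr 1
  ext j
  simp

theorem len_sq (k : Z3) : len k ^ 2 = (nsq k : ℝ) := by
  unfold len
  rw [Real.sq_sqrt]
  unfold nsq
  push_cast
  exact Finset.sum_nonneg fun j _ => sq_nonneg _

theorem kc_le (k : Z3) (j : Fin 3) : ‖kc k j‖ ≤ len k := by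
  unfold kc
  rw [Complex.norm_intCast]
  apply Real.abs_le_sqrt
  unfold nsq
  push_cast
  exact Finset.single_le_sum (f := fun j => ((k j : ℝ)) ^ 2) (fun i _ => sq_nonneg _)
    (Finset.mem_univ j)

theorem dt_le {a b : C3} {A B : ℝ} (hA : ∀ j, ‖a j‖ ≤ A) (hB : ∀ j, ‖b j‖ ≤ B) :
    ‖dt a b‖ ≤ 3 * A * B := by
  unfold dt
  refine (norm_sum_le _ _).trans ?_
  have h : ∀ j ∈ (Finset.univ : Finset (Fin 3)), ‖a j * b j‖ ≤ A * B := fun j _ => by
    rw [norm_mul]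
    exact mul_le_mul (hA j) (hB j) (norm_nonneg _) ((norm_nonneg _).trans (hA j))
  refine (Finset.sum_le_sum h).trans (le_of_eq ?_)
  rw [Finset.sum_const, Finset.card_univ, Fintype.card_fin, nsmul_eq_mul]
  push_cast
  ring

theorem leray_le (k : Z3) {w : C3} {A : ℝ} (hA : ∀ j, ‖w j‖ ≤ A) (j : Fin 3) :
    ‖leray k w j‖ ≤ 4 * A := by
  have hA0 : 0 ≤ A := (norm_nonneg _).trans (hA 0)
  have h2 : ‖dt (kc k) w / ((nsq k : ℝ) : ℂ) * kc k j‖ ≤ 3 * A := by
    rw [norm_mul, norm_div, Complex.norm_real, Real.norm_eq_abs, ← len_sq, abs_of_nonneg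
      (sq_nonneg _)]
    by_cases h0 : len k = 0
    · rw [h0]
      simp
      exact hA0
    · have hp : 0 < len k := lt_of_le_of_ne (len_nonneg k) (Ne.symm h0)
      have h3 := dt_le (kc_le k) hA
      calc ‖dt (kc k) w‖ / len k ^ 2 * ‖kc k j‖ ≤ (3 * len k * A) / len k ^ 2 * len k := by
            apply mul_le_mul _ (kc_le k j) (norm_nonneg _) (by positivity)
            exact div_le_div_of_nonneg_right h3 (by positivity)
        _ = 3 * A := by field_simp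
  unfold leray
  refine (norm_sub_le _ _).trans ?_
  have := hA j
  linarith

theorem leray_sub (k : Z3) (w w' : C3) (j : Fin 3) :
    leray k w j - leray k w' j = leray k (w - w') j := by
  unfold leray dt
  simp only [Pi.sub_apply, mul_sub, Finset.sum_sub_distrib]
  ring

/-- weights -/
noncomputable def W (k : Z3) : ℝ := 1 + len k

theorem one_le_W (k : Z3) : 1 ≤ W k := by
  have := len_nonneg k
  unfold W
  linarith

theorem W_pos (k : Z3) : 0 < W k := lt_of_lt_of_le one_pos (one_le_W k)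

theorem W_sub (k p : Z3) : W (k - p) ≤ W k * W p := by
  have h := len_sub k p
  have h1 := len_nonneg k
  have h2 := len_nonneg p
  unfold W
  nlinarith [mul_nonneg h1 h2]

theorem W_sub' (k p : Z3) : W p ≤ W k * W (k - p) := by
  have h := W_sub k (k - p)
  rwa [sub_sub_cancel] at h

theorem sumW (hS : S_SUM) : Summable fun k : Z3 => (W k ^ 4)⁻¹ := by
  have h1 : Summable fun k : Z3 => if k = 0 then (1 : ℝ) else 0 :=
    summable_of_ne_finset_zero (s := {0}) fun k hk => by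
      rw [if_neg]
      simpa using hk
  refine Summable.of_nonneg_of_le (fun k => inv_nonneg.2 (pow_nonneg (W_pos k).le 4)) (fun k => ?_)
    (Summable.add hS h1)
  by_cases hk : k = 0
  · rw [if_pos hk, if_pos hk, zero_add]
    exact inv_le_one_of_one_le₀ (one_le_pow₀ (one_le_W k))
  · rw [if_neg hk, if_neg hk, add_zero]
    have hl : 0 < len k := by
      have h2 : 0 < (nsq k : ℝ) := by
        obtain ⟨j, hj⟩ := Function.ne_iff.1 hk
        unfold nsq
        push_cast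
        refine Finset.sum_pos' (fun i _ => sq_nonneg _) ⟨j, Finset.mem_univ j, ?_⟩
        have : (k j : ℝ) ≠ 0 := by exact_mod_cast hj
        positivity
      exact Real.sqrt_pos.2 h2
    apply inv_anti₀ (pow_pos hl 4)
    apply pow_le_pow_left₀ hl.le
    unfold W
    linarith

/-! ### The quadratic term -/

/-- the terms of the quadratic term -/
noncomputable def Tm (U U' : Coef) (k : Z3) (j : Fin 3) (p : Z3) : ℂ :=
  2 * Real.pi * Complex.I * dt (U p) (kc (k - p)) * U' (k - p) j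

theorem adv_eq (V : Coef) (k : Z3) (j : Fin 3) : adv V k j = ∑' p, Tm V V k j p := rfl

theorem norm_Tm {U U' : Coef} {k p : Z3} {j : Fin 3} {a b : ℝ} (ha : ‖U p‖ ≤ a)
    (hb : ‖U' (k - p)‖ ≤ b) : ‖Tm U U' k j p‖ ≤ 6 * Real.pi * a * W (k - p) * b := by
  have h1 : ‖dt (U p) (kc (k - p))‖ ≤ 3 * a * W (k - p) := by
    apply dt_le (fun i => (norm_le_pi_norm _ i).trans ha)
    intro i
    refine (kc_le _ i).trans ?_
    unfold W
    linarith
  have h2 : ‖U' (k - p) j‖ ≤ b := (norm_le_pi_norm _ j).trans hb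
  have ha0 : 0 ≤ a := (norm_nonneg _).trans ha
  have hW := W_pos (k - p)
  unfold Tm
  rw [norm_mul, norm_mul, norm_mul, norm_mul, Complex.norm_I, Complex.norm_real,
    Real.norm_eq_abs, abs_of_pos Real.pi_pos]
  have h3 : ‖(2 : ℂ)‖ = 2 := by simp
  rw [h3, mul_one]
  calc 2 * Real.pi * ‖dt (U p) (kc (k - p))‖ * ‖U' (k - p) j‖
      ≤ 2 * Real.pi * (3 * a * W (k - p)) * b := by
        apply mul_le_mul _ h2 (norm_nonneg _) (by positivity)
        exact mul_le_mul_of_nonneg_left h1 (by positivity)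
    _ = 6 * Real.pi * a * W (k - p) * b := by ring

theorem Tm3 {U U' : Coef} {m : ℕ} {a b : ℝ} (ha : 0 ≤ a) (hb : 0 ≤ b)
    (hU : ∀ x, W x ^ (m + 5) * ‖U x‖ ≤ a) (hU' : ∀ x, ‖U' x‖ ≤ b * W x ^ m) (k p : Z3)
    (j : Fin 3) : ‖Tm U U' k j p‖ ≤ 6 * Real.pi * a * b * W k ^ (m + 1) * (W p ^ 4)⁻¹ := by
  have hx := W_pos p
  have hy := W_pos (k - p)
  have hz := W_pos k
  have h1 : ‖U p‖ ≤ a * (W p ^ (m + 5))⁻¹ := by
    rw [← div_eq_mul_inv, le_div_iff₀ (pow_pos hx _), mul_comm]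
    exact hU p
  refine (norm_Tm h1 (hU' (k - p))).trans ?_
  have h2 : W (k - p) ^ (m + 1) ≤ W k ^ (m + 1) * W p ^ (m + 1) := by
    rw [← mul_pow]
    exact pow_le_pow_left₀ hy.le (W_sub k p) _
  have h3 : (W p ^ (m + 5))⁻¹ * W p ^ (m + 1) = (W p ^ 4)⁻¹ := by
    rw [show m + 5 = (m + 1) + 4 by ring, pow_add, mul_inv, mul_comm, ← mul_assoc,
      mul_inv_cancel₀ (pow_pos hx _).ne', one_mul]
  calc 6 * Real.pi * (a * (W p ^ (m + 5))⁻¹) * W (k - p) * (b * W (k - p) ^ m)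
      = 6 * Real.pi * a * b * (W p ^ (m + 5))⁻¹ * W (k - p) ^ (m + 1) := by ring
    _ ≤ 6 * Real.pi * a * b * (W p ^ (m + 5))⁻¹ * (W k ^ (m + 1) * W p ^ (m + 1)) :=
        mul_le_mul_of_nonneg_left h2 (by positivity)
    _ = 6 * Real.pi * a * b * W k ^ (m + 1) * ((W p ^ (m + 5))⁻¹ * W p ^ (m + 1)) := by ring
    _ = _ := by rw [h3]

theorem Tm2 {U U' : Coef} {m : ℕ} {a b : ℝ} (ha : 0 ≤ a) (hb : 0 ≤ b)
    (hU : ∀ x, ‖U x‖ ≤ a * W x ^ m) (hU' : ∀ x, W x ^ (m + 5) * ‖U' x‖ ≤ b) (k p : Z3)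
    (j : Fin 3) : ‖Tm U U' k j p‖ ≤ 6 * Real.pi * a * b * W k ^ m * (W (k - p) ^ 4)⁻¹ := by
  have hx := W_pos p
  have hy := W_pos (k - p)
  have hz := W_pos k
  have h1 : ‖U' (k - p)‖ ≤ b * (W (k - p) ^ (m + 5))⁻¹ := by
    rw [← div_eq_mul_inv, le_div_iff₀ (pow_pos hy _), mul_comm]
    exact hU' _
  refine (norm_Tm (hU p) h1).trans ?_
  have h2 : W p ^ m ≤ W k ^ m * W (k - p) ^ m := by
    rw [← mul_pow]
    exact pow_le_pow_left₀ hx.le (W_sub' k p) _
  have h3 : W (k - p) ^ m * W (k - p) * (W (k - p) ^ (m + 5))⁻¹ = (W (k - p) ^ 4)⁻¹ := by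
    rw [← pow_succ, show m + 5 = (m + 1) + 4 by ring, pow_add (W (k - p)) (m + 1) 4, mul_inv,
      ← mul_assoc, mul_inv_cancel₀ (pow_pos hy _).ne', one_mul]
  calc 6 * Real.pi * (a * W p ^ m) * W (k - p) * (b * (W (k - p) ^ (m + 5))⁻¹)
      = 6 * Real.pi * a * b * W (k - p) * (W (k - p) ^ (m + 5))⁻¹ * W p ^ m := by ring
    _ ≤ 6 * Real.pi * a * b * W (k - p) * (W (k - p) ^ (m + 5))⁻¹ *
          (W k ^ m * W (k - p) ^ m) := mul_le_mul_of_nonneg_left h2 (by positivity)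
    _ = 6 * Real.pi * a * b * W k ^ m *
          (W (k - p) ^ m * W (k - p) * (W (k - p) ^ (m + 5))⁻¹) := by ring
    _ = _ := by rw [h3]

section sums
variable (hs : Summable fun k : Z3 => (W k ^ 4)⁻¹)
include hs

theorem summ_Tm {V : Coef} {a b : ℝ} (ha : 0 ≤ a) (hb : 0 ≤ b)
    (h5 : ∀ x, W x ^ (0 + 5) * ‖V x‖ ≤ a) (h0 : ∀ x, ‖V x‖ ≤ b * W x ^ 0) (k : Z3) (j : Fin 3) :
    Summable (Tm V V k j) :=
  Summable.of_norm_bounded (hs.mul_left _) fun p => Tm3 ha hb h5 h0 k p j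

theorem adv_le {V : Coef} {a b : ℝ} (ha : 0 ≤ a) (hb : 0 ≤ b)
    (h5 : ∀ x, W x ^ (0 + 5) * ‖V x‖ ≤ a) (h0 : ∀ x, ‖V x‖ ≤ b * W x ^ 0) (k : Z3) (j : Fin 3) :
    ‖adv V k j‖ ≤ 6 * Real.pi * a * b * W k * ∑' x, (W x ^ 4)⁻¹ := by
  rw [adv_eq]
  refine tsum_of_norm_bounded (hs.hasSum.mul_left _) fun p => ?_
  have := Tm3 ha hb h5 h0 k p j
  rwa [zero_add, pow_one] at this

theorem adv_diff {V V' : Coef} {a b c e : ℝ} {m : ℕ} (ha : 0 ≤ a) (hb : 0 ≤ b) (hc : 0 ≤ c)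
    (he : 0 ≤ e)
    (h5 : ∀ x, W x ^ (0 + 5) * ‖V x‖ ≤ a) (h0 : ∀ x, ‖V x‖ ≤ b * W x ^ 0)
    (h5' : ∀ x, W x ^ (0 + 5) * ‖V' x‖ ≤ a) (h0' : ∀ x, ‖V' x‖ ≤ b * W x ^ 0)
    (hm : ∀ x, W x ^ (m + 5) * ‖V x‖ ≤ c) (hm' : ∀ x, W x ^ (m + 5) * ‖V' x‖ ≤ c)
    (hd : ∀ x, ‖V x - V' x‖ ≤ e * W x ^ m) (k : Z3) (j : Fin 3) :
    ‖adv V k j - adv V' k j‖ ≤ 6 * Real.pi * e * c * W k ^ m * ∑' x, (W x ^ 4)⁻¹ +
      6 * Real.pi * c * e * W k ^ (m + 1) * ∑' x, (W x ^ 4)⁻¹ := by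
  rw [adv_eq, adv_eq, ← (summ_Tm hs ha hb h5 h0 k j).tsum_sub (summ_Tm hs ha hb h5' h0' k j)]
  have h1 : HasSum (fun p => (W (k - p) ^ 4)⁻¹) (∑' x, (W x ^ 4)⁻¹) := by
    have := (Equiv.subLeft k).hasSum_iff.2 hs.hasSum
    exact this
  refine tsum_of_norm_bounded ((h1.mul_left _).add (hs.hasSum.mul_left _)) fun p => ?_
  have e1 : Tm V V k j p - Tm V' V' k j p =
      Tm (fun x => V x - V' x) V k j p + Tm V' (fun x => V x - V' x) k j p := by
    unfold Tm dt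
    simp only [Pi.sub_apply, sub_mul, Finset.sum_sub_distrib]
    ring
  rw [e1]
  refine (norm_add_le _ _).trans (add_le_add ?_ ?_)
  · exact Tm2 he hc hd hm k p j
  · exact Tm3 hc he hm' hd k p j

end sums

theorem pow_bd {x y M0 Mq : ℝ} (q : ℕ) (hx : 0 ≤ x) (hy : 0 ≤ y) (h0 : y ≤ M0)
    (hq : x ^ q * y ≤ Mq) : (1 + x) ^ q * y ≤ 2 ^ q * (M0 + Mq) := by
  have hM0 : 0 ≤ M0 := hy.trans h0
  have hMq : 0 ≤ Mq := (mul_nonneg (pow_nonneg hx q) hy).trans hq
  rcases le_total x 1 with h | h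
  · calc (1 + x) ^ q * y ≤ 2 ^ q * M0 :=
        mul_le_mul (pow_le_pow_left₀ (by linarith) (by linarith) q) h0 hy (by positivity)
      _ ≤ 2 ^ q * (M0 + Mq) := mul_le_mul_of_nonneg_left (by linarith) (by positivity)
  · calc (1 + x) ^ q * y ≤ (2 * x) ^ q * y :=
        mul_le_mul_of_nonneg_right (pow_le_pow_left₀ (by linarith) (by linarith) q) hy
      _ = 2 ^ q * (x ^ q * y) := by rw [mul_pow]; ring
      _ ≤ 2 ^ q * (M0 + Mq) := mul_le_mul_of_nonneg_left (by linarith) (by positivity)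

theorem t_LIM (hS : S_SUM) : S_LIM := by
  intro d V0 δ Z hd hV0 hδ hZ hM
  have hs := sumW hS
  obtain ⟨S, hSd⟩ : ∃ S : ℝ, S = ∑' k : Z3, (W k ^ 4)⁻¹ := ⟨_, rfl⟩
  have hS0 : 0 ≤ S := by
    rw [hSd]
    exact tsum_nonneg fun k => inv_nonneg.2 (pow_nonneg (W_pos k).le 4)
  -- uniform bounds
  have hB : ∀ q : ℕ, ∃ M : ℝ, 0 ≤ M ∧ ∀ R, ∀ t ∈ Icc 0 δ, ∀ k, W k ^ q * ‖Z R t k‖ ≤ M := by
    intro q
    obtain ⟨M0, h0⟩ := hM 0
    obtain ⟨Mq, hq⟩ := hM q
    have hb : ∀ R, ∀ t ∈ Icc 0 δ, ∀ k j, W k ^ q * ‖Z R t k j‖ ≤ 2 ^ q * (M0 + Mq) := by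
      intro R t ht k j
      have h1 := h0 R t ht k j
      rw [pow_zero, one_mul] at h1
      exact pow_bd q (len_nonneg k) (norm_nonneg _) h1 (hq R t ht k j)
    have hnn : 0 ≤ 2 ^ q * (M0 + Mq) := le_trans
      (mul_nonneg (pow_nonneg (W_pos 0).le q) (norm_nonneg _)) (hb 0 0 ⟨le_rfl, hδ.le⟩ 0 0)
    refine ⟨2 ^ q * (M0 + Mq), hnn, fun R t ht k => ?_⟩
    have hW : 0 < W k ^ q := pow_pos (W_pos k) q
    rw [mul_comm, ← le_div_iff₀ hW, pi_norm_le_iff_of_nonneg (div_nonneg hnn hW.le)]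
    intro j
    rw [le_div_iff₀ hW, mul_comm]
    exact hb R t ht k j
  choose B hB0 hB using hB
  have hB5 : ∀ R, ∀ t ∈ Icc 0 δ, ∀ x, W x ^ (0 + 5) * ‖Z R t x‖ ≤ B 5 := hB 5
  have hB00 : ∀ R, ∀ t ∈ Icc 0 δ, ∀ x, ‖Z R t x‖ ≤ B 0 * W x ^ 0 := by
    intro R t ht x
    have := hB 0 R t ht x
    rw [pow_zero, mul_one]
    rwa [pow_zero, one_mul] at this
  obtain ⟨C, P, hC⟩ := hd.poly
  have hC' : ∀ k, d k ≤ |C| * W k ^ P := fun k =>
    (hC k).trans (mul_le_mul_of_nonneg_right (le_abs_self C) (pow_nonneg (W_pos k).le P))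
  -- bound of the right hand side
  obtain ⟨D, hDd⟩ : ∃ D : ℝ, D = |C| * B 0 + 4 * (6 * Real.pi * B 5 * B 0 * S) := ⟨_, rfl⟩
  have hpi := Real.pi_pos
  have hb0 := hB0 0
  have hb5 := hB0 5
  have hD0 : 0 ≤ D := by rw [hDd]; positivity
  have hrhs : ∀ R, ∀ t ∈ Icc 0 δ, ∀ k j, ‖rhs d (Z R t) k j‖ ≤ D * W k ^ (P + 1) := by
    intro R t ht k j
    have h1 : ‖-((d k : ℝ) : ℂ) * Z R t k j‖ ≤ |C| * B 0 * W k ^ (P + 1) := by
      rw [norm_mul, norm_neg, Complex.norm_real, Real.norm_eq_abs, abs_of_nonneg (hd.nonneg k)]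
      have h2 : ‖Z R t k j‖ ≤ B 0 := by
        have := (norm_le_pi_norm (Z R t k) j).trans (hB00 R t ht k)
        rwa [pow_zero, mul_one] at this
      calc d k * ‖Z R t k j‖ ≤ (|C| * W k ^ P) * B 0 :=
            mul_le_mul (hC' k) h2 (norm_nonneg _)
              (mul_nonneg (abs_nonneg C) (pow_nonneg (W_pos k).le P))
        _ = |C| * B 0 * W k ^ P := by ring
        _ ≤ |C| * B 0 * W k ^ (P + 1) := by
            apply mul_le_mul_of_nonneg_left _ (by positivity)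
            exact pow_le_pow_right₀ (one_le_W k) (Nat.le_succ P)
    have h3 : ‖leray k (adv (Z R t) k) j‖ ≤ 4 * (6 * Real.pi * B 5 * B 0 * S) * W k ^ (P + 1) := by
      have h4 := leray_le k (w := adv (Z R t) k) (A := 6 * Real.pi * B 5 * B 0 * W k * S)
        (fun i => by
          rw [hSd]
          exact adv_le hs hb5 hb0 (hB5 R t ht) (hB00 R t ht) k i) j
      refine h4.trans ?_
      have h5 : W k ≤ W k ^ (P + 1) := le_self_pow₀ (one_le_W k) (Nat.succ_ne_zero P)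
      calc 4 * (6 * Real.pi * B 5 * B 0 * W k * S) = 4 * (6 * Real.pi * B 5 * B 0 * S) * W k := by
            ring
        _ ≤ _ := mul_le_mul_of_nonneg_left h5 (by positivity)
    unfold rhs
    refine (norm_sub_le _ _).trans ?_
    rw [hDd, add_mul]
    exact add_le_add h1 h3
  -- the coordinates are Lipschitz
  have hlip : ∀ R, ∀ s ∈ Icc 0 δ, ∀ t ∈ Icc 0 δ, ∀ k,
      ‖Z R s k - Z R t k‖ ≤ D * |s - t| * W k ^ (P + 1) := by
    intro R s hs' t ht' k
    have hnn : 0 ≤ D * |s - t| * W k ^ (P + 1) :=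
      mul_nonneg (mul_nonneg hD0 (abs_nonneg _)) (pow_nonneg (W_pos k).le _)
    by_cases hk : k = 0
    · rw [hk, (hZ R).zero, (hZ R).zero, sub_self, norm_zero]
      rw [hk] at hnn
      exact hnn
    by_cases hR : nsq k ≤ R
    · rw [pi_norm_le_iff_of_nonneg hnn]
      intro j
      have h1 := Convex.norm_image_sub_le_of_norm_hasDerivWithin_le
        (f := fun u => Z R u k j) (f' := fun u => rhs d (Z R u) k j) (s := Icc 0 δ)
        (fun u hu => (hZ R).eqn k hk hR j u hu) (fun u hu => hrhs R u hu k j)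
        (convex_Icc 0 δ) ht' hs'
      refine h1.trans (le_of_eq ?_)
      rw [Real.norm_eq_abs]
      ring
    · rw [(hZ R).off k (not_le.1 hR), (hZ R).off k (not_le.1 hR), sub_self, norm_zero]
      exact hnn
  -- the right hand side is Lipschitz
  have hrl : ∀ k, ∃ L : ℝ, 0 ≤ L ∧ ∀ R, ∀ s ∈ Icc 0 δ, ∀ t ∈ Icc 0 δ, ∀ j,
      ‖rhs d (Z R s) k j - rhs d (Z R t) k j‖ ≤ L * |s - t| := by
    intro k
    obtain ⟨c, hc⟩ : ∃ c, c = B (P + 1 + 5) := ⟨_, rfl⟩
    have hc0 : 0 ≤ c := by rw [hc]; exact hB0 _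
    have hWk := W_pos k
    refine ⟨d k * (D * W k ^ (P + 1)) + 4 * (6 * Real.pi * D * c * W k ^ (P + 1) * S +
      6 * Real.pi * c * D * W k ^ (P + 1 + 1) * S), ?_, fun R s hs' t ht' j => ?_⟩
    · have := hd.nonneg k
      positivity
    have h1 : ∀ i, ‖(adv (Z R s) k - adv (Z R t) k) i‖ ≤
        (6 * Real.pi * D * c * W k ^ (P + 1) * S +
          6 * Real.pi * c * D * W k ^ (P + 1 + 1) * S) * |s - t| := by
      intro i
      have h2 := adv_diff hs hb5 hb0 hc0 (mul_nonneg hD0 (abs_nonneg (s - t)))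
        (hB5 R s hs') (hB00 R s hs') (hB5 R t ht') (hB00 R t ht') (m := P + 1)
        (fun x => by rw [hc]; exact hB _ R s hs' x) (fun x => by rw [hc]; exact hB _ R t ht' x)
        (fun x => hlip R s hs' t ht' x) k i
      rw [Pi.sub_apply]
      refine h2.trans (le_of_eq ?_)
      rw [← hSd]
      ring
    have h3 : ‖Z R s k j - Z R t k j‖ ≤ D * |s - t| * W k ^ (P + 1) :=
      (norm_le_pi_norm (Z R s k - Z R t k) j).trans (hlip R s hs' t ht' k)
    have e1 : rhs d (Z R s) k j - rhs d (Z R t) k j = -((d k : ℝ) : ℂ) * (Z R s k j - Z R t k j) -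
        leray k (adv (Z R s) k - adv (Z R t) k) j := by
      rw [← leray_sub]
      unfold rhs
      ring
    rw [e1]
    refine (norm_sub_le _ _).trans ?_
    rw [norm_mul, norm_neg, Complex.norm_real, Real.norm_eq_abs, abs_of_nonneg (hd.nonneg k)]
    have h4 := leray_le k h1 j
    have h5 := mul_le_mul_of_nonneg_left h3 (hd.nonneg k)
    calc _ ≤ d k * (D * |s - t| * W k ^ (P + 1)) + 4 * ((6 * Real.pi * D * c * W k ^ (P + 1) * S +
          6 * Real.pi * c * D * W k ^ (P + 1 + 1) * S) * |s - t|) := add_le_add h5 h4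
      _ = _ := by ring
  choose L hL0 hL using hrl
  -- second order estimate
  have hsec : ∀ R : ℕ, ∀ s ∈ Icc 0 δ, ∀ t ∈ Icc 0 δ, ∀ k, k ≠ 0 → nsq k ≤ (R : ℤ) → ∀ j,
      ‖Z R s k j - Z R t k j - ((s - t : ℝ) : ℂ) * rhs d (Z R t) k j‖ ≤ L k * |s - t| * |s - t| := by
    intro R s hs' t ht' k hk hR j
    have hsub : uIcc t s ⊆ Icc 0 δ := uIcc_subset_Icc ht' hs'
    have h1 := Convex.norm_image_sub_le_of_norm_hasDerivWithin_le
      (f := fun u : ℝ => Z R u k j - (u : ℂ) * rhs d (Z R t) k j)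
      (f' := fun u => rhs d (Z R u) k j - 1 * rhs d (Z R t) k j) (s := uIcc t s)
      (C := L k * |s - t|)
      (fun u hu => (((hZ R).eqn k hk hR j u (hsub hu)).mono hsub).sub
        ((Complex.ofRealCLM.hasDerivAt (x := u)).hasDerivWithinAt.mul_const _))
      (fun u hu => by
        rw [one_mul]
        refine (hL k R u (hsub hu) t ht' j).trans (mul_le_mul_of_nonneg_left ?_ (hL0 k))
        exact abs_sub_left_of_mem_uIcc hu)
      (convex_uIcc t s) left_mem_uIcc right_mem_uIcc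
    rw [Real.norm_eq_abs] at h1
    refine le_trans (le_of_eq ?_) h1
    congr 1
    push_cast
    ring
  -- the limit
  have hex : ∀ (t : ℝ) (k : Z3), ∃ x : C3, t ∈ Icc 0 δ →
      Tendsto (fun R => Z R t k) (hyperfilter ℕ : Filter ℕ) (𝓝 x) := by
    intro t k
    by_cases ht : t ∈ Icc 0 δ
    · have h1 : IsCompact (Metric.closedBall (0 : C3) (B 0)) := isCompact_closedBall _ _
      obtain ⟨x, -, hx⟩ := h1.ultrafilter_le_nhds ((hyperfilter ℕ).map fun R => Z R t k) (by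
        rw [le_principal_iff]
        show (fun R => Z R t k) ⁻¹' (Metric.closedBall (0 : C3) (B 0)) ∈ (hyperfilter ℕ : Filter ℕ)
        refine Filter.univ_mem' fun R => ?_
        have := hB00 R t ht k
        rw [pow_zero, mul_one] at this
        simpa using this)
      exact ⟨x, fun _ => hx⟩
    · exact ⟨0, fun h => absurd h ht⟩
  choose V hV using hex
  have hVj : ∀ t ∈ Icc 0 δ, ∀ k j,
      Tendsto (fun R => Z R t k j) (hyperfilter ℕ : Filter ℕ) (𝓝 (V t k j)) := fun t ht k j =>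
    tendsto_pi_nhds.1 (hV t k ht) j
  have hle : (hyperfilter ℕ : Filter ℕ) ≤ atTop := Nat.hyperfilter_le_atTop
  have hevR : ∀ k : Z3, ∀ᶠ R : ℕ in (hyperfilter ℕ : Filter ℕ), nsq k ≤ (R : ℤ) := by
    intro k
    apply hle
    filter_upwards [eventually_ge_atTop (nsq k).toNat] with R hR
    exact (Int.self_le_toNat _).trans (by exact_mod_cast hR)
  have hTm : ∀ t ∈ Icc 0 δ, ∀ k j p, Tendsto (fun R => Tm (Z R t) (Z R t) k j p)
      (hyperfilter ℕ : Filter ℕ) (𝓝 (Tm (V t) (V t) k j p)) := by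
    intro t ht k j p
    have h1 : Tendsto (fun R => dt (Z R t p) (kc (k - p))) (hyperfilter ℕ : Filter ℕ)
        (𝓝 (dt (V t p) (kc (k - p)))) := by
      unfold dt
      exact tendsto_finset_sum _ fun i _ => (hVj t ht p i).mul_const _
    exact (h1.const_mul _).mul (hVj t ht (k - p) j)
  have hadv : ∀ t ∈ Icc 0 δ, ∀ k, Tendsto (fun R => adv (Z R t) k)
      (hyperfilter ℕ : Filter ℕ) (𝓝 (adv (V t) k)) := by
    intro t ht k
    rw [tendsto_pi_nhds]
    intro j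
    exact tendsto_tsum_of_dominated_convergence (hs.mul_left _) (fun p => hTm t ht k j p)
      (Eventually.of_forall fun R p => Tm3 hb5 hb0 (hB5 R t ht) (hB00 R t ht) k p j)
  have hrhsl : ∀ t ∈ Icc 0 δ, ∀ k j, Tendsto (fun R => rhs d (Z R t) k j)
      (hyperfilter ℕ : Filter ℕ) (𝓝 (rhs d (V t) k j)) := by
    intro t ht k j
    have h1 : Continuous fun w : C3 => leray k w j := by
      unfold leray dt
      fun_prop
    exact ((hVj t ht k j).const_mul _).sub ((h1.tendsto _).comp (hadv t ht k))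
  have hreg : ∀ q : ℕ, ∃ M, ∀ t ∈ Icc 0 δ, ∀ k j, len k ^ q * ‖V t k j‖ ≤ M := by
    intro q
    obtain ⟨M, hMq⟩ := hM q
    refine ⟨M, fun t ht k j => ?_⟩
    exact le_of_tendsto (((hVj t ht k j).norm).const_mul _)
      (Eventually.of_forall fun R => hMq R t ht k j)
  refine ⟨V, ⟨fun t ht => ⟨?_, fun k j => ?_, fun k => ?_, fun q => ?_⟩, hreg,
    fun k hk j t ht => ?_⟩, ?_⟩
  · refine tendsto_nhds_unique (hV t 0 ht) ?_
    simp only [(hZ _).zero]
    exact tendsto_const_nhds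
  · refine tendsto_nhds_unique (hVj t ht (-k) j) ?_
    have h1 := (Complex.continuous_conj.tendsto _).comp (hVj t ht k j)
    refine h1.congr fun R => ?_
    exact ((hZ R).real t ht k j).symm
  · have h1 : Tendsto (fun R => dt (kc k) (Z R t k)) (hyperfilter ℕ : Filter ℕ)
        (𝓝 (dt (kc k) (V t k))) := by
      unfold dt
      exact tendsto_finset_sum _ fun i _ => (hVj t ht k i).const_mul _
    refine tendsto_nhds_unique h1 ?_
    simp only [(hZ _).div t ht]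
    exact tendsto_const_nhds
  · obtain ⟨M, hMq⟩ := hreg q
    exact ⟨M, hMq t ht⟩
  · rw [hasDerivWithinAt_iff_isLittleO, Asymptotics.isLittleO_iff]
    intro c hc
    have hLk : 0 < L k + 1 := by linarith [hL0 k]
    have h1 : ∀ᶠ s in 𝓝[Icc 0 δ] t, |s - t| < c / (L k + 1) := by
      have : Tendsto (fun s : ℝ => |s - t|) (𝓝[Icc 0 δ] t) (𝓝 |t - t|) :=
        ((continuous_id.sub continuous_const).abs.tendsto t).mono_left nhdsWithin_le_nhds
      rw [sub_self, abs_zero] at this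
      exact this.eventually_lt_const (div_pos hc hLk)
    filter_upwards [h1, self_mem_nhdsWithin] with s hs1 hs2
    have h2 : ‖V s k j - V t k j - ((s - t : ℝ) : ℂ) * rhs d (V t) k j‖ ≤
        L k * |s - t| * |s - t| := by
      refine le_of_tendsto (((hVj s hs2 k j).sub (hVj t ht k j)).sub
        ((hrhsl t ht k j).const_mul _)).norm ?_
      filter_upwards [hevR k] with R hR
      exact hsec R s hs2 t ht k hk hR j
    rw [Complex.real_smul, Real.norm_eq_abs]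
    refine h2.trans (mul_le_mul_of_nonneg_right ?_ (abs_nonneg _))
    rw [lt_div_iff₀ hLk] at hs1
    nlinarith [abs_nonneg (s - t)]
  · funext k
    refine tendsto_nhds_unique (hV 0 k ⟨le_rfl, hδ.le⟩) ?_
    refine tendsto_const_nhds.congr' ?_
    filter_upwards [hevR k] with R hR
    exact ((hZ R).init k hR).symm

end Pool.Agent.Y141.VL.Lim
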